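import Pool.Agent.R904.DG.Ext

/-!
# Critical motives over the rational numbers
-/

set_option autoImplicit false

namespace Pool.Agent.R904.AB

open Pool.Agent.R904.DG

/-- a totally real number field -/
abbrev RealField : Type 1 := {F : Ext ℚ // NumberField.IsTotallyReal F.F}

/-- the field `ℚ` -/
noncomputable def ratField : RealField :=
  ⟨Ext.self ℚ, inferInstanceAs (NumberField.IsTotallyReal ℚ)⟩

/-- The critical pure motives over `ℚ` of a given weight, with rational coefficients, with the formal
properties of their `L`-values at `0` and Deligne periods. -/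
structure CriticalMotives where
  /-- the critical motives -/
  Mot : Type
  /-- the zero motive -/
  zero : Mot
  /-- the direct sum -/
  add : Mot → Mot → Mot
  /-- isomorphic motives -/
  Iso : Mot → Mot → Prop
  /-- `M ⊗ h⁰(F)` for a totally real field `F`; it is critical like `M` -/
  ext : Mot → RealField → Mot
  /-- the value of the `L`-function at `0` -/
  L : Mot → ℂ
  /-- the Deligne period, for some bases -/
  c : Mot → ℂˣ
  L_zero : L zero = 1
  L_add : ∀ M N, L (add M N) = L M * L N
  L_iso : ∀ M N, Iso M N → L M = L N
  c_zero : ∃ q : ℚˣ, (c zero : ℂ) = (q : ℚ)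
  c_add : ∀ M N, ∃ q : ℚˣ, (c (add M N) : ℂ) = (q : ℚ) * (c M * c N)
  c_iso : ∀ M N, Iso M N → ∃ q : ℚˣ, (c M : ℂ) = (q : ℚ) * c N
  /-- `M ⊗ h⁰(ℚ) = M` -/
  ext_self : ∀ M, Iso (ext M ratField) M
  /-- `⊕ h⁰(F)` depends, up to isomorphism, only on the sum of the permutation characters -/
  ext_perm : ∀ (M : Mot) (A B : List RealField),
    (∀ g, (A.map fun F => permChar F.1 g).sum = (B.map fun F => permChar F.1 g).sum) →
    Iso ((A.map (ext M)).foldr add zero) ((B.map (ext M)).foldr add zero)

namespace CriticalMotives

/-- Deligne's conjecture for `M`: the value `L(M, 0)` is a rational multiple of the period. -/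
def Deligne (T : CriticalMotives) (M : T.Mot) : Prop := ∃ q : ℚ, T.L M = q * T.c M

end CriticalMotives

end Pool.Agent.R904.AB
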