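import Pool.Agent.R904.AB.Main
import Pool.Agent.R904.AB.CritDefs

/-!
# Deligne's conjecture for critical motives: totally real fields
-/

set_option autoImplicit false

namespace Pool.Agent.R904.AB

open Pool.Agent.R904.DG

namespace CriticalMotives

variable (T : CriticalMotives)

theorem L_list (l : List T.Mot) : T.L (l.foldr T.add T.zero) = (l.map fun M => T.L M).prod := by
  induction l with
  | nil => simp [T.L_zero]
  | cons M l ih => simp [T.L_add, ih]

theorem c_list (l : List T.Mot) :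
    ∃ q : ℚˣ, (T.c (l.foldr T.add T.zero) : ℂ) = (q : ℚ) * (l.map fun M => (T.c M : ℂ)).prod := by
  induction l with
  | nil =>
    obtain ⟨a, ha⟩ := T.c_zero
    exact ⟨a, by simp [ha]⟩
  | cons M l ih =>
    obtain ⟨a, ha⟩ := ih
    obtain ⟨b, hb⟩ := T.c_add M (l.foldr T.add T.zero)
    refine ⟨b * a, ?_⟩
    rw [List.foldr_cons, hb, ha, List.map_cons, List.prod_cons, Units.val_mul, Rat.cast_mul]
    ring

theorem deligne_list (l : List T.Mot) (h : ∀ M ∈ l, T.Deligne M) :
    ∃ q : ℚ, (l.map fun M => T.L M).prod = q * (l.map fun M => (T.c M : ℂ)).prod := by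
  induction l with
  | nil => exact ⟨1, by simp⟩
  | cons M l ih =>
    obtain ⟨a, ha⟩ := ih fun N hN => h N (List.mem_cons_of_mem _ hN)
    obtain ⟨b, hb⟩ := h M (List.mem_cons_self)
    refine ⟨b * a, ?_⟩
    rw [List.map_cons, List.prod_cons, hb, ha, List.map_cons, List.prod_cons, Rat.cast_mul]
    ring

theorem descent (M : T.Mot) (A B : List RealField)
    (hAB : ∀ g, (A.map fun F => permChar F.1 g).sum =
      ((ratField :: B).map fun F => permChar F.1 g).sum)
    (hA : ∀ F ∈ A, T.Deligne (T.ext M F)) (hB : ∀ F ∈ B, T.Deligne (T.ext M F))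
    (hB0 : ∀ F ∈ B, T.L (T.ext M F) ≠ 0) : T.Deligne M := by
  have hiso := T.ext_perm M A (ratField :: B) hAB
  have h1 := T.L_iso _ _ hiso
  obtain ⟨u, hu⟩ := T.c_iso _ _ hiso
  obtain ⟨a, ha⟩ := T.deligne_list (A.map (T.ext M)) (by
    intro N hN
    obtain ⟨F, hF, rfl⟩ := List.mem_map.1 hN
    exact hA F hF)
  obtain ⟨b, hb⟩ := T.deligne_list (B.map (T.ext M)) (by
    intro N hN
    obtain ⟨F, hF, rfl⟩ := List.mem_map.1 hN
    exact hB F hF)
  obtain ⟨v, hv⟩ := T.c_list (A.map (T.ext M))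
  obtain ⟨w, hw⟩ := T.c_list ((ratField :: B).map (T.ext M))
  obtain ⟨x, hx⟩ := T.c_iso _ _ (T.ext_self M)
  have hself := T.L_iso _ _ (T.ext_self M)
  have hne : ((B.map (T.ext M)).map fun N => T.L N).prod ≠ 0 := by
    intro h0
    rw [List.prod_eq_zero_iff, List.mem_map] at h0
    obtain ⟨N, hN, hN0⟩ := h0
    obtain ⟨F, hF, rfl⟩ := List.mem_map.1 hN
    exact hB0 F hF hN0
  have hb0 : b ≠ 0 := by
    rintro rfl
    apply hne
    rw [hb, Rat.cast_zero, zero_mul]
  refine ⟨a * b⁻¹ * (v⁻¹ * u * w * x : ℚˣ), ?_⟩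
  rw [T.L_list, T.L_list, List.map_cons, List.map_cons, List.prod_cons, hself, ha, hb] at h1
  rw [hv, hw, List.map_cons, List.map_cons, List.prod_cons, hx] at hu
  have hv0 : ((v : ℚ) : ℂ) ≠ 0 := Rat.cast_ne_zero.2 v.ne_zero
  have hbσ : (b : ℂ) ≠ 0 := Rat.cast_ne_zero.2 hb0
  have hcB : ((B.map (T.ext M)).map fun N => (T.c N : ℂ)).prod ≠ 0 := by
    intro h0
    rw [List.prod_eq_zero_iff, List.mem_map] at h0
    obtain ⟨N, -, hN0⟩ := h0
    exact (T.c N).ne_zero hN0
  set CA := ((A.map (T.ext M)).map fun N => (T.c N : ℂ)).prod with hCA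
  set CB := ((B.map (T.ext M)).map fun N => (T.c N : ℂ)).prod with hCB
  have e3 : CA = ((v : ℚ) : ℂ)⁻¹ * ((u : ℚ) * ((w : ℚ) * ((x : ℚ) * T.c M * CB))) := by
    rw [← hu, ← mul_assoc, inv_mul_cancel₀ hv0, one_mul]
  rw [e3] at h1
  have e4 : T.L M * (b * CB) =
      (((a * b⁻¹ * (v⁻¹ * u * w * x : ℚˣ) : ℚ) : ℂ) * T.c M) * (b * CB) := by
    rw [← h1]
    simp only [Units.val_mul, Units.val_inv_eq_inv_val, Rat.cast_mul, Rat.cast_inv]
    field_simp
  exact mul_right_cancel₀ (mul_ne_zero hbσ hcB) e4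

end CriticalMotives

/-- the lists for totally real fields -/
theorem real_lists' {m n N : ℕ} (hm : 0 < m) (hn : 0 < n) (hmn : Nat.Coprime m n) (hN : 0 < N) :
    ∃ A B : List RealField, (∀ F ∈ A ++ B, RealAbelian N F.1 ∧ DegreeCond m n F.1) ∧
      ∀ g, (A.map fun F => permChar F.1 g).sum =
        ((ratField :: B).map fun F => permChar F.1 g).sum := by
  obtain ⟨A, B, h, hAB⟩ := real_lists hm hn hmn hN
  have key : ∀ l : List (Ext ℚ), (∀ F ∈ l, RealAbelian N F ∧ DegreeCond m n F) →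
      ∃ l' : List RealField, l'.map Subtype.val = l := by
    intro l hl
    exact ⟨l.attach.map fun F => ⟨F.1, (hl F.1 F.2).1.1⟩, by simp [Function.comp_def]⟩
  obtain ⟨A', hA'⟩ := key A fun F hF => h F (List.mem_append_left _ hF)
  obtain ⟨B', hB'⟩ := key B fun F hF => h F (List.mem_append_right _ hF)
  refine ⟨A', B', fun F hF => h F.1 ?_, fun g => ?_⟩
  · rcases List.mem_append.1 hF with h1 | h1
    · apply List.mem_append_left
      rw [← hA']
      exact List.mem_map_of_mem h1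
    · apply List.mem_append_right
      rw [← hB']
      exact List.mem_map_of_mem h1
  · have h2 := hAB g
    rw [← hA', ← hB', List.map_map, List.map_cons, List.map_map] at h2
    rw [List.map_cons]
    exact h2

end Pool.Agent.R904.AB
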