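import Pool.Agent.R904.DG.Ext

/-!
# Real abelian number fields
-/

set_option autoImplicit false

namespace Pool.Agent.R904.AB

open Pool.Agent.R904.DG

/-- `F` is totally real and a subfield of the field of the `n`-th roots of unity for some `n ≥ 1` prime
to `N` (hence abelian over `ℚ` and unramified at the primes dividing `N`) -/
def RealAbelian (N : ℕ) (F : Ext ℚ) : Prop :=
  NumberField.IsTotallyReal F.F ∧
    ∃ n : ℕ, 0 < n ∧ Nat.Coprime n N ∧ Nonempty (F.F →+* CyclotomicField n ℚ)

end Pool.Agent.R904.AB
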