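import Pool.Agent.R904.AB.Grp

/-!
# Relations for the groups `(ℤ/n)ˣ`
-/

set_option autoImplicit false

namespace Pool.Agent.R904.AB

/-- a surjective character of order `p` which is trivial at `-1` -/
theorem exists_char {p q : ℕ} (hp : p.Prime) (hq : q.Prime) (hqp : q ≡ 1 [MOD 2 * p]) :
    ∃ f : (ZMod q)ˣ →* Multiplicative (ZMod p), Function.Surjective f ∧ f (-1) = 1 := by
  haveI : Fact q.Prime := ⟨hq⟩
  haveI : NeZero p := ⟨hp.ne_zero⟩
  have hcard : Nat.card (ZMod q)ˣ = q - 1 := by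
    rw [Nat.card_eq_fintype_card, ZMod.card_units]
  have hd : 2 * p ∣ q - 1 := (Nat.modEq_iff_dvd' hq.one_lt.le).1 hqp.symm
  have hpd : p ∣ Nat.card (ZMod q)ˣ := by
    rw [hcard]
    exact (Dvd.intro_left 2 rfl).trans hd
  haveI : NeZero (Nat.card (ZMod q)ˣ) := ⟨by rw [hcard]; have := hq.two_le; omega⟩
  let e : Multiplicative (ZMod (Nat.card (ZMod q)ˣ)) ≃* (ZMod q)ˣ := zmodCyclicMulEquiv inferInstance
  let r : ZMod (Nat.card (ZMod q)ˣ) →+* ZMod p := ZMod.castHom hpd (ZMod p)
  have hr : Function.Surjective r := ZMod.ringHom_surjective r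
  let f : (ZMod q)ˣ →* Multiplicative (ZMod p) :=
    (AddMonoidHom.toMultiplicative r.toAddMonoidHom).comp e.symm.toMonoidHom
  refine ⟨f, ?_, ?_⟩
  · intro y
    obtain ⟨x, hx⟩ := hr y.toAdd
    refine ⟨e (Multiplicative.ofAdd x), ?_⟩
    change Multiplicative.ofAdd (r ((e.symm (e (Multiplicative.ofAdd x))).toAdd)) = y
    rw [e.symm_apply_apply]
    change Multiplicative.ofAdd (r x) = y
    rw [hx]
    rfl
  · set x : ZMod (Nat.card (ZMod q)ˣ) := (e.symm (-1)).toAdd with hxdef
    have h2x : x + x = 0 := by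
      have h1 : e.symm (-1) * e.symm (-1) = 1 := by
        rw [← map_mul, neg_mul_neg, one_mul, map_one]
      exact congrArg Multiplicative.toAdd h1
    have h3 : ((x.val + x.val : ℕ) : ZMod (Nat.card (ZMod q)ˣ)) = 0 := by
      rw [Nat.cast_add, ZMod.natCast_zmod_val, h2x]
    rw [ZMod.natCast_eq_zero_iff] at h3
    have hd' : 2 * p ∣ Nat.card (ZMod q)ˣ := by
      rw [hcard]
      exact hd
    have h4 : p ∣ x.val := by
      have h5 : 2 * p ∣ 2 * x.val := by
        rw [two_mul x.val]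
        exact hd'.trans h3
      exact (Nat.mul_dvd_mul_iff_left two_pos).1 h5
    change Multiplicative.ofAdd (r x) = 1
    have h6 : r x = 0 := by
      rw [← ZMod.natCast_zmod_val x, map_natCast, ZMod.natCast_eq_zero_iff]
      exact h4
    rw [h6]
    rfl

/-- transport along the Chinese remainder theorem -/
theorem GRel.units_mul {a b m m' : ℕ} (hab : Nat.Coprime a b)
    (h : GRel (ZMod a)ˣ (-1) m) (h' : GRel (ZMod b)ˣ (-1) m') :
    GRel (ZMod (a * b))ˣ (-1) (m * m') := by
  let f : (ZMod (a * b))ˣ ≃* (ZMod a)ˣ × (ZMod b)ˣ :=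
    (Units.mapEquiv (ZMod.chineseRemainder hab).toMulEquiv).trans MulEquiv.prodUnits
  have hf : f (-1) = (-1, -1) := by
    apply Prod.ext
    · apply Units.ext
      change (ZMod.chineseRemainder hab ((-1 : (ZMod (a * b))ˣ) : ZMod (a * b))).1 = _
      rw [Units.val_neg, Units.val_one, map_neg, map_one]
      rfl
    · apply Units.ext
      change (ZMod.chineseRemainder hab ((-1 : (ZMod (a * b))ˣ) : ZMod (a * b))).2 = _
      rw [Units.val_neg, Units.val_one, map_neg, map_one]
      rfl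
  refine GRel.comap f.toMonoidHom f.surjective ?_
  change GRel _ (f (-1)) _
  rw [hf]
  exact h.prod h'

theorem exists_prime_coprime {k : ℕ} (hk : 0 < k) {N : ℕ} (hN : 0 < N) :
    ∃ q : ℕ, q.Prime ∧ q ≡ 1 [MOD k] ∧ Nat.Coprime q N := by
  obtain ⟨q, hq, hq1, hq2⟩ := Nat.exists_prime_gt_modEq_one (k := k) N hk.ne'
  refine ⟨q, hq, hq2, ?_⟩
  rw [hq.coprime_iff_not_dvd]
  intro h
  exact absurd (Nat.le_of_dvd hN h) (not_le.2 hq1)

/-- the relation for `m`, in `(ℤ/n)ˣ` with `n` prime to `N` -/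
theorem exists_units_rel (m : ℕ) : 0 < m → ∀ N : ℕ, 0 < N →
    ∃ n : ℕ, 0 < n ∧ Nat.Coprime n N ∧ GRel (ZMod n)ˣ (-1) m := by
  induction m using Nat.strong_induction_on with
  | _ m ih =>
    intro hm N hN
    rcases Nat.eq_or_lt_of_le (Nat.succ_le_of_lt hm) with h1 | h1
    · subst h1
      exact ⟨1, one_pos, Nat.coprime_one_left N, GRel.one _⟩
    · obtain ⟨p, hp, m', rfl⟩ := Nat.exists_prime_and_dvd (n := m) (by omega)
      have hm' : 0 < m' := Nat.pos_of_ne_zero fun h => by simp [h] at hm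
      have hlt : m' < p * m' := by
        have := hp.two_le
        nlinarith
      have h2p : 0 < 2 * p := by have := hp.pos; omega
      obtain ⟨q1, hq1, hq1p, hq1N⟩ := exists_prime_coprime h2p hN
      obtain ⟨q2, hq2, hq2p, hq2N⟩ := exists_prime_coprime h2p (Nat.mul_pos hN hq1.pos)
      obtain ⟨n, hn, hnN, hrel⟩ := ih m' hlt hm' (N * (q1 * q2))
        (Nat.mul_pos hN (Nat.mul_pos hq1.pos hq2.pos))
      obtain ⟨f1, hf1, hf1'⟩ := exists_char hp hq1 hq1p
      obtain ⟨f2, hf2, hf2'⟩ := exists_char hp hq2 hq2p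
      have hq12 : Nat.Coprime q1 q2 := (Nat.Coprime.coprime_mul_left_right hq2N).symm
      -- the relation of `p`
      have hbase : GRel (ZMod (q1 * q2))ˣ (-1) p := by
        let f : (ZMod (q1 * q2))ˣ ≃* (ZMod q1)ˣ × (ZMod q2)ˣ :=
          (Units.mapEquiv (ZMod.chineseRemainder hq12).toMulEquiv).trans MulEquiv.prodUnits
        have hf : f (-1) = (-1, -1) := by
          apply Prod.ext
          · apply Units.ext
            change (ZMod.chineseRemainder hq12 ((-1 : (ZMod (q1 * q2))ˣ) : ZMod (q1 * q2))).1 = _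
            rw [Units.val_neg, Units.val_one, map_neg, map_one]
            rfl
          · apply Units.ext
            change (ZMod.chineseRemainder hq12 ((-1 : (ZMod (q1 * q2))ˣ) : ZMod (q1 * q2))).2 = _
            rw [Units.val_neg, Units.val_one, map_neg, map_one]
            rfl
        refine GRel.comap ((f1.prodMap f2).comp f.toMonoidHom) ?_ ?_
        · exact (Function.Surjective.prodMap hf1 hf2).comp f.surjective
        · change GRel _ ((f1.prodMap f2) (f (-1))) _
          rw [hf]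
          have h5 : (f1.prodMap f2) (-1, -1) = 1 := Prod.ext hf1' hf2'
          rw [h5]
          exact GRel.base hp
      refine ⟨(q1 * q2) * n, Nat.mul_pos (Nat.mul_pos hq1.pos hq2.pos) hn, ?_, ?_⟩
      · exact Nat.Coprime.mul_left (Nat.Coprime.mul_left hq1N
          (Nat.Coprime.coprime_mul_right_right hq2N)) (Nat.Coprime.coprime_mul_right_right hnN)
      · exact GRel.units_mul (Nat.Coprime.coprime_mul_left_right hnN).symm hbase hrel

end Pool.Agent.R904.AB
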