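import Pool.Agent.R904.DG.Step
import Pool.Agent.R904.AB.Units

/-!
# Real abelian fields and their permutation characters
-/

set_option autoImplicit false

namespace Pool.Agent.R904.AB

open NumberField Pool.Agent.R904.DG IsCyclotomicExtension.Rat

theorem extends_abs {A B Ω : Type} [Field A] [Field B] [Algebra A B] [Algebra.IsAlgebraic A B]
    [Field Ω] [IsAlgClosed Ω] (τ : A →+* Ω) : ∃ τ' : B →+* Ω, ∀ x, τ' (algebraMap A B x) = τ x := by
  letI : Algebra A Ω := τ.toAlgebra
  let τ' : B →ₐ[A] Ω := IsAlgClosed.lift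
  exact ⟨τ'.toRingHom, fun x => τ'.commutes x⟩

theorem card_hom {F Ω : Type} [Field F] [NumberField F] [Field Ω] [CharZero Ω] [IsAlgClosed Ω] :
    Nat.card (F →+* Ω) = Module.finrank ℚ F := by
  rw [Nat.card_congr (RingHom.equivRatAlgHom (R := F) (S := Ω)), Nat.card_eq_fintype_card,
    AlgHom.card]

theorem cnt_rat (Z : Ext ℚ) {Ω : Type} [Field Ω] (φ : ℚ →+* Ω) (g : Ω ≃+* Ω) :
    Z.cnt φ g = Nat.card {τ : Z.F →+* Ω // (g : Ω →+* Ω).comp τ = τ} := by
  unfold Ext.cnt fx Over
  exact Nat.card_congr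
    { toFun := fun τ => ⟨τ.1, τ.2.2⟩
      invFun := fun τ => ⟨τ.1, Subsingleton.elim _ _, τ.2⟩
      left_inv := fun _ => rfl
      right_inv := fun _ => rfl }

section

variable (n : ℕ) [NeZero n] (L : Type) [Field L] [NumberField L] [IsCyclotomicExtension {n} ℚ L]

/-- `Gal(ℚ(ζₙ)/ℚ) = (ℤ/n)ˣ` -/
noncomputable def theta : Gal(L/ℚ) ≃* (ZMod n)ˣ := galEquivZMod n L

/-- the subfield of `ℚ(ζₙ)` fixed by `H` -/
noncomputable abbrev fixedBy (H : Subgroup (ZMod n)ˣ) : IntermediateField ℚ L :=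
  IntermediateField.fixedField (H.comap (theta n L).toMonoidHom)

/-- the subfield of `ℚ(ζₙ)` fixed by `H` -/
noncomputable def fixedExt (H : Subgroup (ZMod n)ˣ) : Ext ℚ := ⟨fixedBy n L H⟩

theorem deg_fixedExt (H : Subgroup (ZMod n)ˣ) : (fixedExt n L H).deg = H.index := by
  have hgal : IsGalois ℚ L := IsCyclotomicExtension.isGalois {n} ℚ L
  have h1 : (fixedExt n L H).deg = Module.finrank ℚ (fixedBy n L H) := rfl
  rw [h1]
  have h2 := Module.finrank_mul_finrank ℚ (fixedBy n L H) L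
  rw [IntermediateField.finrank_fixedField_eq_card, ← IsGalois.card_aut_eq_finrank ℚ L] at h2
  have h3 := (H.comap (theta n L).toMonoidHom).index_mul_card
  rw [Subgroup.index_comap_of_surjective (f := (theta n L).toMonoidHom) _
    (theta n L).surjective] at h3
  have h4 : 0 < Nat.card (H.comap (theta n L).toMonoidHom) := Nat.card_pos
  exact Nat.eq_of_mul_eq_mul_right h4 (h2.trans h3.symm)

variable {n L}

/-- an automorphism which acts on the roots of unity through `u` -/
theorem acts {Ω : Type} [Field Ω] (u : (ZMod n)ˣ) (g : Ω →+* Ω)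
    (hg : ∀ t : Ω, t ^ n = 1 → g t = t ^ (u : ZMod n).val) (τ : L →+* Ω) (x : L) :
    g (τ x) = τ ((theta n L).symm u x) := by
  have hch : CharZero Ω := charZero_of_injective_ringHom τ.injective
  let f1 : L →+* Ω := g.comp τ
  let f2 : L →+* Ω := τ.comp ((theta n L).symm u : L →+* L)
  have hz := IsCyclotomicExtension.zeta_spec n ℚ L
  have key : f1.toRatAlgHom = f2.toRatAlgHom := by
    apply (hz.powerBasis ℚ).algHom_ext
    change g (τ (hz.powerBasis ℚ).gen) = τ ((theta n L).symm u (hz.powerBasis ℚ).gen)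
    rw [IsPrimitiveRoot.powerBasis_gen]
    have h1 := galEquivZMod_apply_of_pow_eq n L ((theta n L).symm u) hz.pow_eq_one
    have h2 : galEquivZMod n L ((theta n L).symm u) = u := (theta n L).apply_symm_apply u
    rw [h2] at h1
    rw [h1, map_pow]
    apply hg
    rw [← map_pow, hz.pow_eq_one, map_one]
  exact congrArg (fun f : L →ₐ[ℚ] Ω => f x) key

/-- homomorphisms extend -/
theorem extends_hom {H : Subgroup (ZMod n)ˣ} {Ω : Type} [Field Ω] [IsAlgClosed Ω]
    (τ : (fixedExt n L H).F →+* Ω) :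
    ∃ τ' : L →+* Ω, ∀ x : fixedBy n L H, τ' (x : L) = τ x := by
  have hint : Algebra.IsAlgebraic (fixedBy n L H) L := inferInstance
  exact extends_abs (A := fixedBy n L H) (B := L) τ

theorem fixed_mem {H : Subgroup (ZMod n)ˣ} {u : (ZMod n)ˣ} (hu : u ∈ H) (x : fixedBy n L H) :
    (theta n L).symm u (x : L) = x := by
  have h := (IntermediateField.mem_fixedField_iff _ _).1 x.2 ((theta n L).symm u) (by
    rw [Subgroup.mem_comap]
    change theta n L ((theta n L).symm u) ∈ H
    rwa [MulEquiv.apply_symm_apply])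
  exact h

theorem fixed_not_mem {H : Subgroup (ZMod n)ˣ} {u : (ZMod n)ˣ} (hu : u ∉ H) :
    ∃ x : fixedBy n L H, (theta n L).symm u (x : L) ≠ x := by
  by_contra hcon
  push Not at hcon
  apply hu
  have h1 : (theta n L).symm u ∈ IntermediateField.fixingSubgroup (fixedBy n L H) := by
    rw [IntermediateField.mem_fixingSubgroup_iff]
    intro x hx
    exact hcon ⟨x, hx⟩
  rw [IntermediateField.fixingSubgroup_fixedField, Subgroup.mem_comap] at h1
  change theta n L ((theta n L).symm u) ∈ H at h1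
  rwa [MulEquiv.apply_symm_apply] at h1

theorem isTotallyReal_fixedExt {H : Subgroup (ZMod n)ˣ} (hH : -1 ∈ H) :
    IsTotallyReal (fixedExt n L H).F := by
  refine ⟨fun v => ?_⟩
  rw [InfinitePlace.isReal_iff]
  obtain ⟨τ', hτ'⟩ := extends_hom (L := L) v.embedding
  have key := acts (Ω := ℂ) (-1 : (ZMod n)ˣ) (starRingEnd ℂ) (by
    intro t ht
    have ht0 : t ≠ 0 := by
      rintro rfl
      rw [zero_pow (NeZero.ne n)] at ht
      exact zero_ne_one ht
    have h1 : ‖t‖ = 1 := Complex.norm_eq_one_of_pow_eq_one ht (NeZero.ne n)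
    have h2 : (starRingEnd ℂ) t * t = 1 := by
      rw [mul_comm, Complex.mul_conj, Complex.normSq_eq_norm_sq, h1]
      norm_num
    have h3 : t ^ ((-1 : (ZMod n)ˣ) : ZMod n).val * t = 1 := by
      rw [← pow_succ]
      have h4 : n ∣ ((-1 : (ZMod n)ˣ) : ZMod n).val + 1 := by
        rw [← ZMod.natCast_eq_zero_iff, Nat.cast_add, ZMod.natCast_zmod_val, Units.val_neg,
          Units.val_one]
        simp
      obtain ⟨k, hk⟩ := h4
      rw [hk, pow_mul, ht, one_pow]
    exact mul_right_cancel₀ ht0 (h2.trans h3.symm)) τ'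
  rw [ComplexEmbedding.isReal_iff]
  ext x
  rw [ComplexEmbedding.conjugate_coe_eq]
  have h5 : v.embedding x = τ' (Subtype.val (show fixedBy n L H from x)) := (hτ' x).symm
  rw [h5, key]
  exact congrArg τ' (fixed_mem hH x)

theorem cnt_fixedExt (H : Subgroup (ZMod n)ˣ) {Ω : Type} [Field Ω] [IsAlgClosed Ω]
    (φ : ℚ →+* Ω) (g : Ω ≃+* Ω) {u : (ZMod n)ˣ}
    (hg : ∀ t : Ω, t ^ n = 1 → g t = t ^ (u : ZMod n).val) :
    ((fixedExt n L H).cnt φ g : ℤ) = ind H u := by
  have hch : CharZero Ω := charZero_of_injective_ringHom φ.injective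
  have key := acts (L := L) u (g : Ω →+* Ω) hg
  rw [cnt_rat]
  by_cases hu : u ∈ H
  · have h1 : ∀ (τ : (fixedExt n L H).F →+* Ω), (g : Ω →+* Ω).comp τ = τ := by
      intro τ
      ext x
      obtain ⟨τ', hτ'⟩ := extends_hom τ
      have h2 : τ x = τ' (Subtype.val (show fixedBy n L H from x)) := (hτ' x).symm
      change (g : Ω →+* Ω) (τ x) = τ x
      rw [h2]
      exact (key τ' _).trans (congrArg τ' (fixed_mem hu x))
    rw [ind_mem hu, ← deg_fixedExt n L]
    rw [Nat.card_congr (Equiv.subtypeUnivEquiv h1), card_hom]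
    rfl
  · rw [ind_not_mem hu]
    have hem : IsEmpty {τ : (fixedExt n L H).F →+* Ω // (g : Ω →+* Ω).comp τ = τ} := by
      refine ⟨fun τ => ?_⟩
      obtain ⟨x, hx⟩ := fixed_not_mem (L := L) hu
      obtain ⟨τ', hτ'⟩ := extends_hom τ.1
      apply hx
      apply τ'.injective
      rw [← key τ']
      have h3 : (g : Ω →+* Ω) (τ.1 x) = τ.1 x := congrArg (fun f : _ →+* Ω => f x) τ.2
      have h2 : τ.1 x = τ' (x : L) := (hτ' x).symm
      rw [h2] at h3
      exact h3
    rw [Nat.card_of_isEmpty]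
    rfl

end

/-- the cyclotomic character -/
theorem exists_cyc (n : ℕ) [NeZero n] {Ω : Type} [Field Ω] [CharZero Ω] [IsAlgClosed Ω]
    (g : Ω ≃+* Ω) : ∃ u : (ZMod n)ˣ, ∀ t : Ω, t ^ n = 1 → g t = t ^ (u : ZMod n).val := by
  have hn : Nat.card { x // x ∈ rootsOfUnity n Ω } = n :=
    HasEnoughRootsOfUnity.natCard_rootsOfUnity Ω n
  refine ⟨modularCyclotomicCharacter Ω hn g, fun t ht => ?_⟩
  have hu : IsUnit t := IsUnit.of_pow_eq_one ht (NeZero.ne n)
  obtain ⟨w, rfl⟩ := hu
  have hw : w ∈ rootsOfUnity n Ω := by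
    rw [mem_rootsOfUnity]
    apply Units.ext
    rw [Units.val_pow_eq_pow_val, ht, Units.val_one]
  exact modularCyclotomicCharacter.spec Ω hn g hw

end Pool.Agent.R904.AB
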