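import Mathlib

/-!
# Relations between the permutation characters of a finite abelian group
-/

set_option autoImplicit false

namespace Pool.Agent.R904.AB

open scoped Classical in
/-- the permutation character of `G/H` for a commutative group `G` -/
noncomputable def ind {G : Type} [CommGroup G] (H : Subgroup G) (u : G) : ℤ :=
  if u ∈ H then (H.index : ℤ) else 0

theorem ind_mem {G : Type} [CommGroup G] {H : Subgroup G} {u : G} (h : u ∈ H) :
    ind H u = H.index := if_pos h

theorem ind_not_mem {G : Type} [CommGroup G] {H : Subgroup G} {u : G} (h : u ∉ H) :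
    ind H u = 0 := if_neg h

/-- `m` times the trivial character of the commutative group `G` is a combination of the permutation
characters of `G/H`, with `c ∈ H` and the index of `H` divisible by `m` and dividing `m²` -/
def GRel (G : Type) [CommGroup G] (c : G) (m : ℕ) : Prop :=
  ∃ (ι : Type) (_ : Fintype ι) (H : ι → Subgroup G) (e : ι → ℤ),
    (∀ i, c ∈ H i ∧ m ∣ (H i).index ∧ (H i).index ∣ m ^ 2) ∧
    ∀ u : G, ∑ i, e i * ind (H i) u = m

theorem GRel.one {G : Type} [CommGroup G] (c : G) : GRel G c 1 :=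
  ⟨Unit, inferInstance, fun _ => ⊤, fun _ => 1, fun _ => ⟨Subgroup.mem_top _, by simp, by simp⟩,
    fun u => by simp [ind]⟩

theorem GRel.comap {G G' : Type} [CommGroup G] [CommGroup G'] (f : G →* G')
    (hf : Function.Surjective f) {c : G} {m : ℕ} (h : GRel G' (f c) m) : GRel G c m := by
  obtain ⟨ι, hι, H, e, h1, h2⟩ := h
  refine ⟨ι, hι, fun i => (H i).comap f, e, fun i => ?_, fun u => ?_⟩
  · rw [Subgroup.index_comap_of_surjective _ hf]
    exact h1 i
  · rw [← h2 (f u)]
    refine Finset.sum_congr rfl fun i _ => ?_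
    congr 1
    by_cases hu : f u ∈ H i
    · rw [ind_mem hu, ind_mem (Subgroup.mem_comap.2 hu), Subgroup.index_comap_of_surjective _ hf]
    · rw [ind_not_mem hu, ind_not_mem fun h => hu (Subgroup.mem_comap.1 h)]

theorem GRel.prod {G G' : Type} [CommGroup G] [CommGroup G'] {c : G} {c' : G'} {m m' : ℕ}
    (h : GRel G c m) (h' : GRel G' c' m') : GRel (G × G') (c, c') (m * m') := by
  obtain ⟨ι, hι, H, e, h1, h2⟩ := h
  obtain ⟨ι', hι', H', e', h1', h2'⟩ := h'
  refine ⟨ι × ι', inferInstance, fun x => (H x.1).prod (H' x.2), fun x => e x.1 * e' x.2,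
    fun x => ⟨⟨(h1 x.1).1, (h1' x.2).1⟩, ?_, ?_⟩, fun u => ?_⟩
  · rw [Subgroup.index_prod]
    exact mul_dvd_mul (h1 x.1).2.1 (h1' x.2).2.1
  · rw [Subgroup.index_prod, mul_pow]
    exact mul_dvd_mul (h1 x.1).2.2 (h1' x.2).2.2
  · rw [Nat.cast_mul, ← h2 u.1, ← h2' u.2, Finset.sum_mul_sum, Fintype.sum_prod_type]
    refine Finset.sum_congr rfl fun i _ => Finset.sum_congr rfl fun j _ => ?_
    by_cases ha : u.1 ∈ H i
    · by_cases hb : u.2 ∈ H' j
      · rw [ind_mem ha, ind_mem hb, ind_mem (Subgroup.mem_prod.2 ⟨ha, hb⟩), Subgroup.index_prod,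
          Nat.cast_mul]
        ring
      · rw [ind_not_mem hb, ind_not_mem (fun h => hb (Subgroup.mem_prod.1 h).2), mul_zero, mul_zero,
          mul_zero]
    · rw [ind_not_mem ha, ind_not_mem (fun h => ha (Subgroup.mem_prod.1 h).1), mul_zero, mul_zero,
        zero_mul]

/-- the line `y = j x` -/
def line (p : ℕ) (j : ZMod p) :
    Multiplicative (ZMod p) × Multiplicative (ZMod p) →* Multiplicative (ZMod p) where
  toFun u := Multiplicative.ofAdd (u.2.toAdd - j * u.1.toAdd)
  map_one' := by simp
  map_mul' u v := by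
    rw [← ofAdd_add]
    congr 1
    rw [Prod.fst_mul, Prod.snd_mul, toAdd_mul, toAdd_mul]
    ring

theorem line_surjective (p : ℕ) (j : ZMod p) : Function.Surjective (line p j) := fun x =>
  ⟨(1, x), by simp [line]⟩

theorem index_ker_surj {G : Type} [Group G] {p : ℕ} [NeZero p] (f : G →* Multiplicative (ZMod p))
    (hf : Function.Surjective f) : f.ker.index = p := by
  rw [Subgroup.index_ker, MonoidHom.range_eq_top.2 hf]
  simp [Nat.card_eq_fintype_card, ZMod.card]

/-- the relation of `(ℤ/p)²` -/
theorem GRel.base {p : ℕ} (hp : p.Prime) :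
    GRel (Multiplicative (ZMod p) × Multiplicative (ZMod p)) 1 p := by
  have : Fact p.Prime := ⟨hp⟩
  let V := Multiplicative (ZMod p) × Multiplicative (ZMod p)
  let L0 : V →* Multiplicative (ZMod p) :=
    MonoidHom.fst (Multiplicative (ZMod p)) (Multiplicative (ZMod p))
  have hfst : Function.Surjective L0 := fun x => ⟨(x, 1), rfl⟩
  have hbot : (⊥ : Subgroup V).index = p * p := by
    rw [Subgroup.index_bot, Nat.card_prod]
    simp
  have hi0 := index_ker_surj _ hfst
  have hi1 : ∀ j, (line p j).ker.index = p := fun j => index_ker_surj _ (line_surjective p j)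
  refine ⟨(Unit ⊕ ZMod p) ⊕ Unit, inferInstance,
    Sum.elim (Sum.elim (fun _ => L0.ker) (fun j => (line p j).ker)) (fun _ => ⊥),
    Sum.elim (fun _ => 1) (fun _ => -1), ?_, fun u => ?_⟩
  · rintro ((_ | j) | _)
    · refine ⟨Subgroup.one_mem _, ?_, ?_⟩
      · rw [Sum.elim_inl, Sum.elim_inl, hi0]
      · rw [Sum.elim_inl, Sum.elim_inl, hi0]
        exact dvd_pow_self p two_ne_zero
    · refine ⟨Subgroup.one_mem _, ?_, ?_⟩
      · rw [Sum.elim_inl, Sum.elim_inr, hi1]
      · rw [Sum.elim_inl, Sum.elim_inr, hi1]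
        exact dvd_pow_self p two_ne_zero
    · refine ⟨Subgroup.one_mem _, ?_, ?_⟩
      · rw [Sum.elim_inr, hbot]
        exact dvd_mul_right p p
      · rw [Sum.elim_inr, hbot, sq]
  · rw [Fintype.sum_sum_type, Fintype.sum_sum_type]
    simp only [Sum.elim_inl, Sum.elim_inr, one_mul, Finset.univ_unique, Finset.sum_singleton]
    obtain ⟨x, y⟩ := u
    by_cases hx : x = 1
    · have h0 : ((x, y) : V) ∈ L0.ker := hx
      rw [ind_mem h0, hi0]
      by_cases hy : y = 1
      · subst hx hy
        have h1 : ∀ j : ZMod p, ind (line p j).ker (1 : V) = p := fun j => by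
          rw [ind_mem (Subgroup.one_mem _), hi1]
        have h2 : ind (⊥ : Subgroup V) (1 : V) = p * p := by
          rw [ind_mem (Subgroup.one_mem _), hbot, Nat.cast_mul]
        change (p : ℤ) + ∑ j : ZMod p, ind (line p j).ker (1 : V) +
          -1 * ind (⊥ : Subgroup V) (1 : V) = p
        rw [Finset.sum_congr rfl fun j _ => h1 j, h2]
        simp [ZMod.card]
      · have h1 : ∀ j : ZMod p, ind (line p j).ker ((x, y) : V) = 0 := by
          intro j
          refine ind_not_mem fun hj => hy ?_
          rw [MonoidHom.mem_ker] at hj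
          subst hx
          simpa [line] using hj
        have h2 : ind (⊥ : Subgroup V) ((x, y) : V) = 0 := by
          refine ind_not_mem fun h => hy ?_
          rw [Subgroup.mem_bot] at h
          exact congrArg Prod.snd h
        rw [Finset.sum_congr rfl fun j _ => h1 j, h2]
        simp
    · have hx0 : x.toAdd ≠ 0 := fun h => hx (by
        rw [← ofAdd_toAdd x, h]
        rfl)
      have h2 : ind (⊥ : Subgroup V) ((x, y) : V) = 0 := by
        refine ind_not_mem fun h => hx ?_
        rw [Subgroup.mem_bot] at h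
        exact congrArg Prod.fst h
      have h3 : ind L0.ker ((x, y) : V) = 0 := ind_not_mem fun h => hx h
      have h1 : ∀ j : ZMod p, ind (line p j).ker ((x, y) : V) =
          if j = y.toAdd / x.toAdd then (p : ℤ) else 0 := by
        intro j
        have h4 : ((x, y) ∈ (line p j).ker) ↔ j = y.toAdd / x.toAdd := by
          rw [MonoidHom.mem_ker, eq_div_iff hx0]
          change Multiplicative.ofAdd (y.toAdd - j * x.toAdd) = 1 ↔ _
          rw [← ofAdd_zero, Multiplicative.ofAdd.injective.eq_iff, sub_eq_zero]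
          exact eq_comm
        by_cases hj : j = y.toAdd / x.toAdd
        · rw [if_pos hj, ind_mem (h4.2 hj), hi1]
        · rw [if_neg hj, ind_not_mem fun h => hj (h4.1 h)]
      rw [Finset.sum_congr rfl fun j _ => h1 j, h2, h3,
        Finset.sum_ite_eq' Finset.univ (y.toAdd / x.toAdd) (fun _ => (p : ℤ))]
      simp

end Pool.Agent.R904.AB
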