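import Pool.Agent.R904.AB.Fields
import Pool.Agent.R904.AB.Defs
import Pool.Agent.R904.DG.Lists

/-!
# Relations between permutation characters of real abelian fields
-/

set_option autoImplicit false

namespace Pool.Agent.R904.AB

open Pool.Agent.R904.DG

theorem exists_cyclo (n : ℕ) [NeZero n] : ∃ (L : Type) (_ : Field L) (_ : NumberField L),
    IsCyclotomicExtension {n} ℚ L ∧ Nonempty (L →+* CyclotomicField n ℚ) := by
  refine ⟨CyclotomicField n ℚ, inferInstance, inferInstance, ?_, ⟨RingHom.id _⟩⟩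
  have h : (DivisionRing.toRatAlgebra : Algebra ℚ (CyclotomicField n ℚ)) =
    CyclotomicField.algebra n ℚ := Subsingleton.elim _ _
  rw [h]
  infer_instance

/-- `m` times the trivial character -/
theorem rel_real {m N : ℕ} (hm : 0 < m) (hN : 0 < N) :
    ∃ (ι : Type) (_ : Fintype ι) (Z : ι → Ext ℚ) (e : ι → ℤ),
      (∀ i, RealAbelian N (Z i) ∧ m ∣ (Z i).deg ∧ (Z i).deg ∣ m ^ 2) ∧ Rel Z e m := by
  obtain ⟨n, hn, hnN, ι, hι, H, e, hH, hrel⟩ := exists_units_rel m hm N hN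
  have : NeZero n := ⟨hn.ne'⟩
  obtain ⟨L, hL1, hL2, hL3, ⟨j⟩⟩ := exists_cyclo n
  refine ⟨ι, hι, fun i => fixedExt n L (H i), e, fun i => ⟨⟨?_, n, hn, hnN, ⟨?_⟩⟩, ?_⟩, ?_⟩
  · exact isTotallyReal_fixedExt (hH i).1
  · exact j.comp (fixedBy n L (H i)).val.toRingHom
  · rw [deg_fixedExt]
    exact (hH i).2
  · intro Ω _ _ φ g hg
    have hch : CharZero Ω := charZero_of_injective_ringHom φ.injective
    obtain ⟨u, hu⟩ := exists_cyc n g
    rw [← hrel u]
    refine Finset.sum_congr rfl fun i _ => ?_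
    rw [cnt_fixedExt (H i) φ g hu]

/-- the trivial character -/
theorem rel_real_one {m n N : ℕ} (hm : 0 < m) (hn : 0 < n) (hmn : Nat.Coprime m n) (hN : 0 < N) :
    ∃ (r : ℕ) (Z : Fin r → Ext ℚ) (e : Fin r → ℤ),
      (∀ i, RealAbelian N (Z i) ∧ DegreeCond m n (Z i)) ∧ Rel Z e 1 := by
  obtain ⟨ι1, h1, Z1, e1, hZ1, hC1⟩ := rel_real hm hN
  obtain ⟨ι2, h2, Z2, e2, hZ2, hC2⟩ := rel_real hn hN
  let e := Fintype.equivFin (ι1 ⊕ ι2)
  have key : ∀ x : ι1 ⊕ ι2, RealAbelian N (Sum.elim Z1 Z2 x) ∧ DegreeCond m n (Sum.elim Z1 Z2 x) := by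
    rintro (j | j)
    · exact ⟨(hZ1 j).1, Or.inl (hZ1 j).2⟩
    · exact ⟨(hZ2 j).1, Or.inr (hZ2 j).2⟩
  refine ⟨_, fun i => Sum.elim Z1 Z2 (e.symm i),
    fun i => Sum.elim (fun j => m.gcdA n * e1 j) (fun j => m.gcdB n * e2 j) (e.symm i),
    fun i => key (e.symm i), fun Ω _ _ φ g hg => ?_⟩
  rw [Equiv.sum_comp e.symm (fun x => Sum.elim (fun j => m.gcdA n * e1 j)
    (fun j => m.gcdB n * e2 j) x * ((Sum.elim Z1 Z2 x).cnt φ g : ℤ)), Fintype.sum_sum_type]
  simp only [Sum.elim_inl, Sum.elim_inr, mul_assoc]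
  rw [← Finset.mul_sum, ← Finset.mul_sum, hC1 Ω φ g hg, hC2 Ω φ g hg]
  have h3 := Nat.gcd_eq_gcd_ab m n
  rw [hmn] at h3
  rw [mul_comm _ (m : ℤ), mul_comm _ (n : ℤ), ← h3]
  rfl

theorem permChar_eq_cnt {K : Type} [Field K] [NumberField K] (Z : Ext K)
    (g : AlgebraicClosure K ≃ₐ[K] AlgebraicClosure K) :
    permChar Z g = Z.cnt (algebraMap K (AlgebraicClosure K)) g.toRingEquiv := by
  unfold permChar Ext.cnt fx
  refine Nat.card_congr
    { toFun := fun τ => ⟨τ.1.toRingHom, ?_, ?_⟩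
      invFun := fun σ => ⟨{ σ.1 with
        commutes' := fun x => congrArg (fun f : K →+* AlgebraicClosure K => f x) σ.2.1 }, ?_⟩
      left_inv := fun _ => rfl
      right_inv := fun _ => rfl }
  · ext x
    exact τ.1.commutes x
  · ext x
    exact τ.2 x
  · intro x
    exact congrArg (fun f : Z.F →+* AlgebraicClosure K => f x) σ.2.2

/-- real abelian fields: a relation as an identity between sums over lists -/
theorem real_lists {m n N : ℕ} (hm : 0 < m) (hn : 0 < n) (hmn : Nat.Coprime m n) (hN : 0 < N) :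
    ∃ A B : List (Ext ℚ), (∀ F ∈ A ++ B, RealAbelian N F ∧ DegreeCond m n F) ∧
      ∀ g, (A.map fun F => permChar F g).sum =
        ((Ext.self ℚ :: B).map fun F => permChar F g).sum := by
  obtain ⟨r, Z, e, hd, hrel⟩ := rel_real_one hm hn hmn hN
  have h : IsRelation Z e 1 := by
    intro g
    have h1 := hrel (AlgebraicClosure ℚ) (algebraMap ℚ (AlgebraicClosure ℚ)) g.toRingEquiv
      (Subsingleton.elim _ _)
    simp only [permChar_eq_cnt]
    exact h1
  obtain ⟨A, B, hA, hB, hAB⟩ := lists_of_relation h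
  refine ⟨A, B, fun F hF => ?_, hAB⟩
  rcases List.mem_append.1 hF with h1 | h1
  · obtain ⟨i, rfl⟩ := hA F h1
    exact hd i
  · obtain ⟨i, rfl⟩ := hB F h1
    exact hd i

end Pool.Agent.R904.AB
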